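import Pool.Agent.H611R2.RTMain

/-!
# MP_18af55_lc: real-time nondeterministic machines with few guesses

`Qc md g` is the class `Q_g = NTIME-NONDET(id, g)` of the problem for nondeterministic multitape
Turing machines (definitions in `Pool.Agent.H611R2.RTDefs`): all languages `A ⊆ {0,1}*` accepted
by some machine which, on every `x ∈ A`, has an accepting computation with at most `|x|` steps of
which at most `g(|x|)` are nondeterministic.  The parameter `md` is the convention for accepting
configurations (halting in an accepting state / accepting state with the whole input read /
accepting state); the result holds for all three.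

Result: `Q_{log n}` is a proper subclass of `Q_n`; more generally `Q_g` is a proper subclass of
`Q_n` for every `g = o(n)`.
-/

namespace Pool.Agent.Results.MP_18af55_lc.RealTimeGuesses

open Pool.Agent.H611R2.RT Filter Asymptotics

theorem result :
    (∀ md : Mode, Qc md (fun n => Real.logb 2 n) ⊂ Qc md (fun n => (n : ℝ))) ∧
    (∀ (md : Mode) (g : ℕ → ℝ), g =o[atTop] (fun n : ℕ => (n : ℝ)) →
      Qc md g ⊂ Qc md (fun n => (n : ℝ))) :=
  ⟨strict_log, strict⟩

end Pool.Agent.Results.MP_18af55_lc.RealTimeGuesses
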